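import Pool.Agent.J6H90.Spec.Meas

/-!
Harmonic analysis of the measure `mu`: the squared modulus `W` of its Fourier transform, the
spectrum `9 t + 3 ε / 4` and the Parseval identity.
-/

set_option autoImplicit false

open MeasureTheory ProbabilityTheory Set Filter Topology
open scoped ENNReal Real

namespace Pool.Agent.J6H90.Spec

/-- `cos² (π x)` -/
noncomputable def C (x : ℝ) : ℝ := Real.cos (π * x) ^ 2

lemma C_nonneg (x : ℝ) : 0 ≤ C x := sq_nonneg _

lemma C_le_one (x : ℝ) : C x ≤ 1 := Real.cos_sq_le_one _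

lemma C_sub_int (x : ℝ) (n : ℤ) : C (x - n) = C x := by
  unfold C
  have e : π * (x - n) = π * x - n * π := by ring
  rw [e, Real.cos_sub_int_mul_pi, mul_pow]
  have h2 : (((-1 : ℝ) ^ n) ^ 2) = 1 := by
    rw [← zpow_natCast, ← zpow_mul, mul_comm, zpow_mul]
    norm_num
  rw [h2, one_mul]

lemma C_add_half (x : ℝ) : C (x + 1 / 2) = 1 - C x := by
  unfold C
  have e : π * (x + 1 / 2) = π * x + π / 2 := by ring
  rw [e, Real.cos_add_pi_div_two, neg_sq]
  have := Real.sin_sq_add_cos_sq (π * x)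
  linarith

lemma C_sub_half (x : ℝ) : C (x - 1 / 2) = 1 - C x := by
  have h := C_add_half (x - 1 / 2)
  rw [sub_add_cancel] at h
  linarith

lemma C_zero : C 0 = 1 := by simp [C]

lemma continuous_C : Continuous C := by
  unfold C
  fun_prop

/-- the Fourier transform of `mu` -/
noncomputable def F (ξ : ℝ) : ℂ := charFun mu (2 * π * ξ)

/-- its squared modulus -/
noncomputable def W (ξ : ℝ) : ℝ := ‖F ξ‖ ^ 2

lemma F_zero : F 0 = 1 := by
  unfold F
  rw [mul_zero, charFun_zero]
  simp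

lemma W_zero : W 0 = 1 := by
  unfold W
  rw [F_zero]
  simp

lemma W_nonneg (ξ : ℝ) : 0 ≤ W ξ := sq_nonneg _

lemma W_le_one (ξ : ℝ) : W ξ ≤ 1 := by
  unfold W F
  have := norm_charFun_le_one (μ := mu) (t := 2 * π * ξ)
  exact pow_le_one₀ (norm_nonneg _) this

lemma continuous_W : Continuous W := by
  unfold W F
  have h : Continuous (charFun mu) := continuous_charFun
  fun_prop

lemma norm_sq_one_add_exp (θ : ℝ) : ‖(1 + Complex.exp (θ * Complex.I))‖ ^ 2 =
    4 * Real.cos (θ / 2) ^ 2 := by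
  have h1 : (1 + Complex.exp (θ * Complex.I)) =
      Complex.exp ((θ / 2 : ℝ) * Complex.I) * ((2 * Real.cos (θ / 2) : ℝ) : ℂ) := by
    push_cast
    rw [Complex.two_cos, mul_add, ← Complex.exp_add, ← Complex.exp_add, add_comm]
    congr 1
    · congr 1; ring
    · rw [← Complex.exp_zero]; congr 1; ring
  rw [h1, norm_mul, Complex.norm_exp_ofReal_mul_I, one_mul, Complex.norm_real, Real.norm_eq_abs,
    sq_abs]
  ring

lemma norm_phi_sq (x : ℝ) : ‖phi (2 * π * x)‖ ^ 2 = C x * C (8 * x) := by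
  have h1 : phi (2 * π * x) = 4⁻¹ * ((1 + Complex.exp ((2 * π * x : ℝ) * Complex.I)) *
      (1 + Complex.exp ((2 * π * (8 * x) : ℝ) * Complex.I))) := by
    unfold phi
    congr 1
    simp only [Fin.sum_univ_four, dg]
    simp only [Matrix.cons_val_zero, Matrix.cons_val_one, Matrix.cons_val]
    rw [mul_add, add_mul, add_mul, one_mul, mul_one, ← Complex.exp_add]
    simp only [Complex.ofReal_zero, Complex.ofReal_one, mul_zero, zero_mul, Complex.exp_zero]
    push_cast
    rw [show (2 * (π : ℂ) * x * 1 * Complex.I) = 2 * (π : ℂ) * x * Complex.I by ring,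
      show (2 * (π : ℂ) * x * 8 * Complex.I) = 2 * (π : ℂ) * (8 * x) * Complex.I by ring,
      show (2 * (π : ℂ) * x * 9 * Complex.I) = 2 * (π : ℂ) * x * Complex.I +
        2 * (π : ℂ) * (8 * x) * Complex.I by ring]
    ring
  rw [h1, norm_mul, norm_mul, mul_pow, mul_pow, norm_sq_one_add_exp, norm_sq_one_add_exp]
  unfold C
  have e1 : 2 * π * x / 2 = π * x := by ring
  have e2 : 2 * π * (8 * x) / 2 = π * (8 * x) := by ring
  rw [e1, e2]
  have : ‖(4⁻¹ : ℂ)‖ = 4⁻¹ := by simp
  rw [this]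
  ring

lemma W_rec (ξ : ℝ) : W ξ = C (ξ / 12) * C (2 * ξ / 3) * W (ξ / 12) := by
  unfold W F
  rw [charFun_rec]
  have e : 2 * π * ξ / 12 = 2 * π * (ξ / 12) := by ring
  rw [e, norm_mul, mul_pow, norm_phi_sq]
  congr 3
  ring

/-- the finite products -/
noncomputable def B : ℕ → ℝ → ℝ
  | 0, _ => 1
  | n + 1, ζ => C (ζ / 12) * C (ζ / 18) * B n (ζ / 12)

/-- the tail -/
noncomputable def tau (y : ℝ) : ℝ := C (y / 12) * W (y / 12)

lemma B_nonneg (n : ℕ) : ∀ ζ, 0 ≤ B n ζ := by
  induction n with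
  | zero => intro ζ; simp [B]
  | succ n ih =>
    intro ζ
    simp only [B]
    exact mul_nonneg (mul_nonneg (C_nonneg _) (C_nonneg _)) (ih _)

lemma B_zero (n : ℕ) : B n 0 = 1 := by
  induction n with
  | zero => simp [B]
  | succ n ih => simp [B, C_zero, ih]

lemma W_factor (n : ℕ) : ∀ ξ, W ξ = C (2 * ξ / 3) * B n ξ * tau (ξ / 12 ^ n) := by
  induction n with
  | zero =>
    intro ξ
    simp only [B, tau, pow_zero, div_one, mul_one]
    rw [W_rec]
    ring
  | succ n ih =>
    intro ξ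
    rw [W_rec, ih (ξ / 12)]
    simp only [B]
    have e1 : 2 * (ξ / 12) / 3 = ξ / 18 := by ring
    have e2 : ξ / 12 / 12 ^ n = ξ / 12 ^ (n + 1) := by rw [div_div, ← pow_succ']
    rw [e1, e2]
    ring

/-- integers with digits `-1, 0, 1, 2` in base twelve -/
def T : ℕ → Finset ℤ
  | 0 => {0}
  | n + 1 => (({-1, 0, 1, 2} : Finset ℤ) ×ˢ T n).image fun p => p.1 + 12 * p.2

lemma zero_mem_T (n : ℕ) : (0 : ℤ) ∈ T n := by
  induction n with
  | zero => simp [T]
  | succ n ih =>
    simp only [T, Finset.mem_image, Finset.mem_product]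
    exact ⟨(0, 0), ⟨by simp, ih⟩, by simp⟩

lemma T_subset_succ (n : ℕ) : T n ⊆ T (n + 1) := by
  induction n with
  | zero =>
    intro t ht
    simp only [T, Finset.mem_singleton] at ht
    rw [ht]
    exact zero_mem_T _
  | succ n ih =>
    intro t ht
    rw [T, Finset.mem_image] at ht ⊢
    obtain ⟨p, hp, rfl⟩ := ht
    rw [Finset.mem_product] at hp
    exact ⟨p, Finset.mem_product.mpr ⟨hp.1, ih hp.2⟩, rfl⟩

lemma T_mono {m n : ℕ} (h : m ≤ n) : T m ⊆ T n := by
  induction n, h using Nat.le_induction with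
  | base => exact Finset.Subset.refl _
  | succ n _ ih => exact ih.trans (T_subset_succ n)

lemma T_bound (n : ℕ) : ∀ t ∈ T n, |(t : ℝ)| ≤ 2 / 11 * (12 ^ n - 1) := by
  induction n with
  | zero => intro t ht; simp only [T, Finset.mem_singleton] at ht; simp [ht]
  | succ n ih =>
    intro t ht
    rw [T, Finset.mem_image] at ht
    obtain ⟨⟨j, s⟩, hp, rfl⟩ := ht
    rw [Finset.mem_product] at hp
    have h1 := ih s hp.2
    have h2 : |(j : ℝ)| ≤ 2 := by
      have := hp.1
      simp only [Finset.mem_insert, Finset.mem_singleton] at this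
      rcases this with h | h | h | h <;> rw [h] <;> norm_num
    push_cast
    calc |(j : ℝ) + 12 * s| ≤ |(j : ℝ)| + |12 * (s : ℝ)| := abs_add_le _ _
      _ = |(j : ℝ)| + 12 * |(s : ℝ)| := by rw [abs_mul]; norm_num
      _ ≤ 2 + 12 * (2 / 11 * (12 ^ n - 1)) := by linarith
      _ = 2 / 11 * (12 ^ (n + 1) - 1) := by rw [pow_succ]; ring

lemma digit_sum (a b : ℝ) :
    ∑ j ∈ ({-1, 0, 1, 2} : Finset ℤ), C (a - 3 / 4 * j) * C (b - 1 / 2 * j) = 1 := by
  rw [Finset.sum_insert (by decide), Finset.sum_insert (by decide), Finset.sum_insert (by decide),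
    Finset.sum_singleton]
  have h1 : C (a - 3 / 4 * ((-1 : ℤ) : ℝ)) = 1 - C (a + 1 / 4) := by
    rw [← C_add_half]
    congr 1
    push_cast
    ring
  have h2 : C (b - 1 / 2 * ((-1 : ℤ) : ℝ)) = 1 - C b := by
    rw [← C_add_half]
    congr 1
    push_cast
    ring
  have h3 : C (a - 3 / 4 * ((0 : ℤ) : ℝ)) = C a := by simp
  have h4 : C (b - 1 / 2 * ((0 : ℤ) : ℝ)) = C b := by simp
  have h5 : C (a - 3 / 4 * ((1 : ℤ) : ℝ)) = C (a + 1 / 4) := by
    rw [← C_sub_int (a + 1 / 4) 1]
    congr 1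
    push_cast
    ring
  have h6 : C (b - 1 / 2 * ((1 : ℤ) : ℝ)) = 1 - C b := by
    rw [← C_sub_half]
    congr 1
    push_cast
    ring
  have h7 : C (a - 3 / 4 * ((2 : ℤ) : ℝ)) = 1 - C a := by
    rw [← C_sub_half, ← C_sub_int (a - 1 / 2) 1]
    congr 1
    push_cast
    ring
  have h8 : C (b - 1 / 2 * ((2 : ℤ) : ℝ)) = C b := by
    rw [← C_sub_int b 1]
    congr 1
    push_cast
    ring
  rw [h1, h2, h3, h4, h5, h6, h7, h8]
  ring

lemma B_sum (n : ℕ) : ∀ ζ : ℝ, ∑ t ∈ T n, B n (ζ - 9 * t) = 1 := by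
  induction n with
  | zero => intro ζ; simp [T, B]
  | succ n ih =>
    intro ζ
    rw [T, Finset.sum_image]
    · rw [Finset.sum_product]
      have h1 : ∀ j ∈ ({-1, 0, 1, 2} : Finset ℤ),
          ∑ s ∈ T n, B (n + 1) (ζ - 9 * ((j + 12 * s : ℤ) : ℝ)) =
          C (ζ / 12 - 3 / 4 * j) * C (ζ / 18 - 1 / 2 * j) := by
        intro j _
        have h2 : ∀ s : ℤ, B (n + 1) (ζ - 9 * ((j + 12 * s : ℤ) : ℝ)) =
            C (ζ / 12 - 3 / 4 * j) * C (ζ / 18 - 1 / 2 * j) *
              B n ((ζ / 12 - 3 / 4 * j) - 9 * s) := by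
          intro s
          simp only [B]
          congr 1
          · congr 1
            · rw [← C_sub_int (ζ / 12 - 3 / 4 * j) (9 * s)]
              congr 1
              push_cast
              ring
            · rw [← C_sub_int (ζ / 18 - 1 / 2 * j) (6 * s)]
              congr 1
              push_cast
              ring
          · congr 1
            push_cast
            ring
        simp_rw [h2]
        rw [← Finset.mul_sum, ih, mul_one]
      rw [Finset.sum_congr rfl h1]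
      exact digit_sum _ _
    · rintro ⟨j, s⟩ hp ⟨j', s'⟩ hp' heq
      simp only [Finset.coe_product, Set.mem_prod, Finset.mem_coe] at hp hp'
      have h1 := hp.1
      have h2 := hp'.1
      simp only [Finset.mem_insert, Finset.mem_singleton] at h1 h2
      simp only at heq
      have : j = j' ∧ s = s' := by omega
      rw [this.1, this.2]

/-- all the integers of this kind -/
def TT : Set ℤ := ⋃ n, (T n : Set ℤ)

/-- index set of the spectrum -/
abbrev Ix : Type := TT × Bool

/-- the frequencies -/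
noncomputable def fr (i : Ix) : ℝ := 9 * (i.1 : ℤ) + (if i.2 then 3 / 4 else 0)

lemma fr_injective : Function.Injective fr := by
  rintro ⟨⟨t, ht⟩, b⟩ ⟨⟨s, hs⟩, c⟩ h
  simp only [fr] at h
  cases b <;> cases c <;> simp only [Bool.false_eq_true, ↓reduceIte] at h
  · have : t = s := by
      have : (9 * t : ℝ) = 9 * s := by linarith
      exact_mod_cast (mul_left_cancel₀ (by norm_num : (9 : ℝ) ≠ 0) this)
    subst this
    rfl
  · exfalso
    have : ((36 * t : ℤ) : ℝ) = ((36 * s + 3 : ℤ) : ℝ) := by push_cast; linarith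
    have : 36 * t = 36 * s + 3 := by exact_mod_cast this
    omega
  · exfalso
    have : ((36 * t + 3 : ℤ) : ℝ) = ((36 * s : ℤ) : ℝ) := by push_cast; linarith
    have : 36 * t + 3 = 36 * s := by exact_mod_cast this
    omega
  · have : t = s := by
      have : (9 * t : ℝ) = 9 * s := by linarith
      exact_mod_cast (mul_left_cancel₀ (by norm_num : (9 : ℝ) ≠ 0) this)
    subst this
    rfl

/-- `A n ξ` -/
noncomputable def A (n : ℕ) (ξ : ℝ) : ℝ := C (2 * ξ / 3) * B n ξ

lemma A_nonneg (n : ℕ) (ξ : ℝ) : 0 ≤ A n ξ := mul_nonneg (C_nonneg _) (B_nonneg _ _)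

lemma A_zero (n : ℕ) : A n 0 = 1 := by simp [A, B_zero, C_zero]

lemma mem_TT {n : ℕ} {t : ℤ} (h : t ∈ T n) : t ∈ TT := mem_iUnion.mpr ⟨n, h⟩

/-- the inclusion of the finite stages -/
def emb (n : ℕ) : {t : ℤ // t ∈ T n} ↪ TT :=
  ⟨fun t => (⟨t.1, mem_TT t.2⟩ : TT), fun a b h => by
    have h2 : a.1 = b.1 := congrArg (fun z : TT => (z : ℤ)) h
    exact Subtype.ext h2⟩

/-- the finite stages of the index set -/
noncomputable def IxF (n : ℕ) : Finset Ix :=
  ((T n).attach.map (emb n)) ×ˢ Finset.univ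

lemma mem_IxF {n : ℕ} {i : Ix} : i ∈ IxF n ↔ (i.1 : ℤ) ∈ T n := by
  unfold IxF
  rw [Finset.mem_product]
  constructor
  · rintro ⟨h, -⟩
    rw [Finset.mem_map] at h
    obtain ⟨a, -, ha⟩ := h
    rw [← ha]
    exact a.2
  · intro h
    refine ⟨?_, Finset.mem_univ _⟩
    rw [Finset.mem_map]
    exact ⟨⟨_, h⟩, Finset.mem_attach _ _, by apply Subtype.ext; rfl⟩

lemma A_sum (n : ℕ) (ξ : ℝ) : ∑ i ∈ IxF n, A n (ξ - fr i) = 1 := by
  unfold IxF
  rw [Finset.sum_product_right]
  have h1 : ∀ b : Bool, ∑ x ∈ ((T n).attach.map (emb n)), A n (ξ - fr (x, b)) =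
      C (2 * ξ / 3 - if b then 1 / 2 else 0) := by
    intro b
    rw [Finset.sum_map]
    have h2 : ∀ t : ℤ, ∀ ht : t ∈ TT, A n (ξ - fr ((⟨t, ht⟩ : TT), b)) =
        C (2 * ξ / 3 - if b then 1 / 2 else 0) *
          B n ((ξ - if b then 3 / 4 else 0) - 9 * t) := by
      intro t ht
      unfold A fr
      congr 1
      · rw [← C_sub_int (2 * ξ / 3 - if b then 1 / 2 else 0) (6 * t)]
        congr 1
        cases b
        · simp only [Bool.false_eq_true, ↓reduceIte]; push_cast; ring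
        · simp only [↓reduceIte]; push_cast; ring
      · congr 1
        ring
    have h3 := Finset.sum_attach (T n) (fun t : ℤ => B n ((ξ - if b then 3 / 4 else 0) - 9 * t))
    have h4 : ∀ t ∈ (T n).attach, A n (ξ - fr (emb n t, b)) =
        C (2 * ξ / 3 - if b then 1 / 2 else 0) *
          B n ((ξ - if b then 3 / 4 else 0) - 9 * (t : ℤ)) := fun t _ => h2 t.1 (mem_TT t.2)
    rw [Finset.sum_congr rfl h4, ← Finset.mul_sum, h3, B_sum, mul_one]
  simp_rw [h1]
  rw [Fintype.sum_bool]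
  simp only [↓reduceIte, Bool.false_eq_true, sub_zero]
  rw [C_sub_half]
  ring

lemma W_le_A (n : ℕ) (ξ : ℝ) : W ξ ≤ A n ξ := by
  rw [W_factor n ξ]
  have h1 : tau (ξ / 12 ^ n) ≤ 1 := mul_le_one₀ (C_le_one _) (W_nonneg _) (W_le_one _)
  exact mul_le_of_le_one_right (A_nonneg n ξ) h1

/-- orthogonality -/
lemma W_fr {i j : Ix} (h : i ≠ j) : W (fr i - fr j) = 0 := by
  obtain ⟨m, hm⟩ := mem_iUnion.mp i.1.2
  obtain ⟨n, hn⟩ := mem_iUnion.mp j.1.2
  set N := max m n
  have hi : i ∈ IxF N := mem_IxF.mpr (T_mono (le_max_left _ _) hm)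
  have hj : j ∈ IxF N := mem_IxF.mpr (T_mono (le_max_right _ _) hn)
  have h1 := A_sum N (fr i)
  have h2 : A N (fr i - fr i) + A N (fr i - fr j) ≤ ∑ k ∈ IxF N, A N (fr i - fr k) := by
    have : ∑ k ∈ ({i, j} : Finset Ix), A N (fr i - fr k) ≤ ∑ k ∈ IxF N, A N (fr i - fr k) := by
      refine Finset.sum_le_sum_of_subset_of_nonneg ?_ fun k _ _ => A_nonneg _ _
      intro k hk
      rw [Finset.mem_insert, Finset.mem_singleton] at hk
      rcases hk with rfl | rfl
      · exact hi
      · exact hj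
    rwa [Finset.sum_pair h] at this
  rw [h1, sub_self, A_zero] at h2
  have h3 := W_le_A N (fr i - fr j)
  have h4 := W_nonneg (fr i - fr j)
  linarith

lemma tau_zero : tau 0 = 1 := by simp [tau, C_zero, W_zero]

lemma continuous_tau : Continuous tau := by
  unfold tau
  have h1 := continuous_C
  have h2 := continuous_W
  fun_prop

lemma C_pos {x : ℝ} (hx : |x| < 1 / 2) : 0 < C x := by
  unfold C
  have hpi := Real.pi_pos
  rw [abs_lt] at hx
  have : 0 < Real.cos (π * x) := by
    apply Real.cos_pos_of_mem_Ioo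
    constructor <;> nlinarith
  positivity

lemma W_pos_small : ∀ y : ℝ, |y| ≤ 1 / 2 → 0 < W y := by
  -- near zero
  have h0 : ∀ᶠ y in 𝓝 (0 : ℝ), 0 < W y := by
    have := continuous_W.tendsto 0
    rw [W_zero] at this
    exact this.eventually (lt_mem_nhds one_pos)
  rw [Metric.eventually_nhds_iff] at h0
  obtain ⟨δ, hδ, h0⟩ := h0
  have key : ∀ (n : ℕ) (y : ℝ), |y| ≤ 1 / 2 → |y| < δ * 12 ^ n → 0 < W y := by
    intro n
    induction n with
    | zero =>
      intro y _ h2
      apply h0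
      rw [dist_zero_right, Real.norm_eq_abs]
      simpa using h2
    | succ n ih =>
      intro y h1 h2
      rw [W_rec]
      have e1 : |y / 12| = |y| / 12 := by rw [abs_div]; norm_num
      have e2 : |2 * y / 3| = 2 * |y| / 3 := by rw [abs_div, abs_mul]; norm_num
      refine mul_pos (mul_pos (C_pos ?_) (C_pos ?_)) (ih _ ?_ ?_)
      · rw [e1]; linarith
      · rw [e2]; linarith
      · rw [e1]; linarith
      · rw [e1]
        rw [pow_succ] at h2
        linarith
  intro y hy
  obtain ⟨n, hn⟩ := pow_unbounded_of_one_lt (|y| / δ) (by norm_num : (1 : ℝ) < 12)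
  refine key n y hy ?_
  rw [div_lt_iff₀ hδ] at hn
  linarith

lemma exists_tau_lower : ∃ c : ℝ, 0 < c ∧ ∀ y : ℝ, |y| ≤ 3 → c ≤ tau y := by
  have hne : (Icc (-3 : ℝ) 3).Nonempty := ⟨0, by norm_num, by norm_num⟩
  obtain ⟨y0, hy0, hmin⟩ := isCompact_Icc.exists_isMinOn hne continuous_tau.continuousOn
  refine ⟨tau y0, ?_, fun y hy => hmin (abs_le.mp hy)⟩
  have h3 : |y0| ≤ 3 := abs_le.mpr hy0
  have e1 : |y0 / 12| = |y0| / 12 := by rw [abs_div]; norm_num
  refine mul_pos (C_pos ?_) (W_pos_small _ ?_)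
  · rw [e1]; linarith
  · rw [e1]; linarith

lemma summable_W (ξ : ℝ) : Summable fun i : Ix => W (ξ - fr i) := by
  refine summable_of_sum_le (c := 1) (fun i => W_nonneg _) fun u => ?_
  have : ∃ n, u ⊆ IxF n := by
    classical
    induction u using Finset.induction_on with
    | empty => exact ⟨0, by simp⟩
    | insert i u _ ih =>
      obtain ⟨n, hn⟩ := ih
      obtain ⟨m, hm⟩ := mem_iUnion.mp i.1.2
      refine ⟨max m n, ?_⟩
      intro k hk
      rw [Finset.mem_insert] at hk
      rcases hk with rfl | hk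
      · exact mem_IxF.mpr (T_mono (le_max_left _ _) hm)
      · exact mem_IxF.mpr (T_mono (le_max_right _ _) (mem_IxF.mp (hn hk)))
  obtain ⟨n, hn⟩ := this
  calc ∑ i ∈ u, W (ξ - fr i) ≤ ∑ i ∈ IxF n, W (ξ - fr i) :=
        Finset.sum_le_sum_of_subset_of_nonneg hn fun _ _ _ => W_nonneg _
    _ ≤ ∑ i ∈ IxF n, A n (ξ - fr i) := Finset.sum_le_sum fun i _ => W_le_A n _
    _ = 1 := A_sum n ξ

/-- Parseval's identity for the exponentials -/
lemma tsum_W (ξ : ℝ) : ∑' i : Ix, W (ξ - fr i) = 1 := by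
  classical
  obtain ⟨c, hc, htau⟩ := exists_tau_lower
  -- for large n all the arguments of the tail are small
  have hev : ∀ᶠ n : ℕ in atTop, ∀ i ∈ IxF n, |(ξ - fr i) / 12 ^ n| ≤ 3 := by
    obtain ⟨N, hN⟩ := pow_unbounded_of_one_lt (|ξ| + 1) (by norm_num : (1 : ℝ) < 12)
    filter_upwards [eventually_ge_atTop N] with n hn i hi
    have h12 : (12 : ℝ) ^ N ≤ 12 ^ n := pow_le_pow_right₀ (by norm_num) hn
    have hpos : (0 : ℝ) < 12 ^ n := by positivity
    rw [abs_div, abs_of_pos hpos, div_le_iff₀ hpos]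
    have h1 := T_bound n _ (mem_IxF.mp hi)
    have h2 : |fr i| ≤ 9 * |((i.1 : ℤ) : ℝ)| + 3 / 4 := by
      unfold fr
      refine (abs_add_le _ _).trans ?_
      rw [abs_mul]
      have : |(if i.2 = true then (3 / 4 : ℝ) else 0)| ≤ 3 / 4 := by
        split_ifs <;> norm_num
      have h9 : |(9 : ℝ)| = 9 := by norm_num
      rw [h9]
      linarith
    have h3 : |ξ - fr i| ≤ |ξ| + |fr i| := abs_sub _ _
    linarith
  have hlim : Tendsto (fun n : ℕ => ∑' i : Ix, (if i ∈ IxF n then A n (ξ - fr i) else 0)) atTop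
      (𝓝 (∑' i : Ix, W (ξ - fr i))) := by
    refine tendsto_tsum_of_dominated_convergence (bound := fun i => c⁻¹ * W (ξ - fr i))
      ((summable_W ξ).mul_left _) ?_ ?_
    · intro i
      obtain ⟨m, hm⟩ := mem_iUnion.mp i.1.2
      have h1 : Tendsto (fun n : ℕ => tau ((ξ - fr i) / 12 ^ n)) atTop (𝓝 1) := by
        have h2 : Tendsto (fun n : ℕ => (ξ - fr i) / 12 ^ n) atTop (𝓝 0) := by
          have h3 : Tendsto (fun n : ℕ => (12 : ℝ) ^ n) atTop atTop :=
            tendsto_pow_atTop_atTop_of_one_lt (by norm_num)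
          exact h3.const_div_atTop _
        have h4 := (continuous_tau.tendsto 0).comp h2
        rwa [tau_zero] at h4
      have h5 : Tendsto (fun n : ℕ => W (ξ - fr i) / tau ((ξ - fr i) / 12 ^ n)) atTop
          (𝓝 (W (ξ - fr i) / 1)) := tendsto_const_nhds.div h1 one_ne_zero
      rw [div_one] at h5
      refine h5.congr' ?_
      filter_upwards [hev, eventually_ge_atTop m] with n hn hmn
      have hi : i ∈ IxF n := mem_IxF.mpr (T_mono hmn hm)
      have h6 := htau _ (hn i hi)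
      rw [if_pos hi, W_factor n]
      have h7 : tau ((ξ - fr i) / 12 ^ n) ≠ 0 := by linarith
      rw [mul_div_assoc, div_self h7, mul_one]
      rfl
    · filter_upwards [hev] with n hn i
      split_ifs with hi
      · rw [Real.norm_of_nonneg (A_nonneg _ _)]
        have h6 := htau _ (hn i hi)
        rw [W_factor n (ξ - fr i), ← div_eq_inv_mul, le_div_iff₀ hc]
        exact mul_le_mul_of_nonneg_left h6 (A_nonneg n _)
      · rw [norm_zero]
        exact mul_nonneg (inv_nonneg.mpr hc.le) (W_nonneg _)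
  have hone : ∀ n : ℕ, ∑' i : Ix, (if i ∈ IxF n then A n (ξ - fr i) else 0) = 1 := by
    intro n
    rw [tsum_eq_sum (s := IxF n) (fun i hi => by rw [if_neg hi])]
    rw [← A_sum n ξ]
    exact Finset.sum_congr rfl fun i hi => by rw [if_pos hi]
  simp_rw [hone] at hlim
  exact (tendsto_nhds_unique hlim tendsto_const_nhds)

end Pool.Agent.J6H90.Spec
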