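import Mathlib

/-!
A self-similar probability measure `μ` on the line for the four maps `x ↦ (x + b) / 12`,
`b = 0, 1, 8, 9`, as the law of `∑ b_k / 12 ^ (k + 1)` with independent uniform digits `b_k`.
-/

set_option autoImplicit false

open MeasureTheory ProbabilityTheory Set Filter Topology
open scoped ENNReal Real

namespace Pool.Agent.J6H90.Spec

/-- the four digits -/
def dg : Fin 4 → ℝ := ![0, 1, 8, 9]

lemma dg_nonneg (a : Fin 4) : 0 ≤ dg a := by
  fin_cases a <;> simp [dg]

lemma dg_le (a : Fin 4) : dg a ≤ 9 := by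
  fin_cases a <;> simp [dg] <;> norm_num

/-- the uniform distribution on four points -/
noncomputable def nu : Measure (Fin 4) := (4⁻¹ : ℝ≥0∞) • Measure.count

instance : IsProbabilityMeasure nu := by
  constructor
  unfold nu
  rw [Measure.smul_apply, Measure.count_univ]
  simp only [smul_eq_mul]
  have : ((ENat.card (Fin 4) : ℕ∞) : ℝ≥0∞) = 4 := by
    simp [ENat.card_eq_coe_fintype_card]
  rw [this]
  exact ENNReal.inv_mul_cancel (by norm_num) (by norm_num)

/-- the product measure -/
noncomputable def PP : Measure (ℕ → Fin 4) := Measure.infinitePi (fun _ => nu)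

instance : IsProbabilityMeasure PP := by
  unfold PP
  infer_instance

/-- the partial sums -/
noncomputable def Xn (n : ℕ) (ω : ℕ → Fin 4) : ℝ := ∑ k ∈ Finset.range n, dg (ω k) / 12 ^ (k + 1)

/-- the random series -/
noncomputable def XX (ω : ℕ → Fin 4) : ℝ := ∑' k : ℕ, dg (ω k) / 12 ^ (k + 1)

lemma summable_geo : Summable fun n : ℕ => (9 : ℝ) / 12 ^ (n + 1) := by
  have h := (summable_geometric_of_lt_one (r := (1 / 12 : ℝ)) (by norm_num) (by norm_num)).mul_left
    (9 / 12)
  refine h.congr fun n => ?_
  rw [pow_succ, div_pow, one_pow]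
  field_simp

lemma summable_X (ω : ℕ → Fin 4) : Summable fun k : ℕ => dg (ω k) / 12 ^ (k + 1) := by
  refine Summable.of_nonneg_of_le (fun k => ?_) (fun k => ?_) summable_geo
  · have := dg_nonneg (ω k)
    positivity
  · have := dg_le (ω k)
    exact div_le_div_of_nonneg_right this (by positivity)

lemma tendsto_Xn (ω : ℕ → Fin 4) : Tendsto (fun n => Xn n ω) atTop (𝓝 (XX ω)) :=
  (summable_X ω).hasSum.tendsto_sum_nat

lemma measurable_dg : Measurable dg := measurable_from_top

lemma measurable_term (k : ℕ) : Measurable fun ω : ℕ → Fin 4 => dg (ω k) / 12 ^ (k + 1) :=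
  (measurable_dg.comp (measurable_pi_apply k)).div_const _

lemma measurable_Xn (n : ℕ) : Measurable (Xn n) := by
  unfold Xn
  exact Finset.measurable_fun_sum _ fun k _ => measurable_term k

lemma measurable_XX : Measurable XX := by
  refine measurable_of_tendsto_metrizable (f := Xn) measurable_Xn ?_
  rw [tendsto_pi_nhds]
  exact tendsto_Xn

/-- the measure -/
noncomputable def mu : Measure ℝ := PP.map XX

instance : IsProbabilityMeasure mu := by
  unfold mu
  exact Measure.isProbabilityMeasure_map measurable_XX.aemeasurable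

/-- the characteristic function of one digit -/
noncomputable def phi (t : ℝ) : ℂ := 4⁻¹ * ∑ a : Fin 4, Complex.exp (t * dg a * Complex.I)

lemma nu_real (a : Fin 4) : nu.real {a} = 4⁻¹ := by
  unfold nu
  rw [measureReal_def, Measure.smul_apply, Measure.count_singleton]
  simp

lemma charFun_term (k : ℕ) (t : ℝ) :
    charFun (PP.map fun ω : ℕ → Fin 4 => dg (ω k) / 12 ^ (k + 1)) t = phi (t / 12 ^ (k + 1)) := by
  rw [charFun_apply_real]
  rw [integral_map (measurable_term k).aemeasurable
    (by fun_prop : Continuous _).aestronglyMeasurable]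
  have h1 : ∫ ω : ℕ → Fin 4, Complex.exp (t * ((dg (ω k) / 12 ^ (k + 1) : ℝ) : ℂ) * Complex.I) ∂PP
      = ∫ a : Fin 4, Complex.exp (t * ((dg a / 12 ^ (k + 1) : ℝ) : ℂ) * Complex.I) ∂nu := by
    have hmp : MeasurePreserving (Function.eval k) PP nu := by
      unfold PP
      exact measurePreserving_eval_infinitePi (fun _ => nu) k
    have hm : AEStronglyMeasurable
        (fun a : Fin 4 => Complex.exp (t * ((dg a / 12 ^ (k + 1) : ℝ) : ℂ) * Complex.I))
        (PP.map (Function.eval k)) :=
      (measurable_from_top : Measurable _).aestronglyMeasurable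
    rw [← hmp.map_eq, integral_map hmp.measurable.aemeasurable hm]
  rw [h1, integral_fintype (Integrable.of_finite)]
  unfold phi
  rw [Finset.mul_sum]
  refine Finset.sum_congr rfl fun a _ => ?_
  rw [nu_real, Complex.real_smul]
  push_cast
  congr 2
  ring

lemma indep_terms : iIndepFun (fun (k : ℕ) (ω : ℕ → Fin 4) => dg (ω k) / 12 ^ (k + 1)) PP := by
  unfold PP
  exact iIndepFun_infinitePi (P := fun _ : ℕ => nu) (X := fun (k : ℕ) (a : Fin 4) =>
    dg a / 12 ^ (k + 1)) (fun k => measurable_from_top)

lemma charFun_Xn (n : ℕ) (t : ℝ) :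
    charFun (PP.map (Xn n)) t = ∏ k ∈ Finset.range n, phi (t / 12 ^ (k + 1)) := by
  have h := iIndepFun.charFun_map_fun_finsetSum_eq_prod (s := Finset.range n)
    (X := fun (k : ℕ) (ω : ℕ → Fin 4) => dg (ω k) / 12 ^ (k + 1)) (P := PP)
    (fun k _ => (measurable_term k).aemeasurable) (indep_terms.restrict _)
  have h2 : charFun (PP.map (Xn n)) = ∏ i ∈ Finset.range n,
      charFun (PP.map fun ω : ℕ → Fin 4 => dg (ω i) / 12 ^ (i + 1)) := h
  rw [h2, Finset.prod_apply]
  exact Finset.prod_congr rfl fun k _ => charFun_term k t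

lemma tendsto_charFun (t : ℝ) :
    Tendsto (fun n => charFun (PP.map (Xn n)) t) atTop (𝓝 (charFun mu t)) := by
  have h1 : ∀ n, charFun (PP.map (Xn n)) t = ∫ ω, Complex.exp (t * Xn n ω * Complex.I) ∂PP := by
    intro n
    rw [charFun_apply_real, integral_map (measurable_Xn n).aemeasurable
      (by fun_prop : Continuous _).aestronglyMeasurable]
  have h2 : charFun mu t = ∫ ω, Complex.exp (t * XX ω * Complex.I) ∂PP := by
    unfold mu
    rw [charFun_apply_real, integral_map measurable_XX.aemeasurable
      (by fun_prop : Continuous _).aestronglyMeasurable]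
  simp_rw [h1]
  rw [h2]
  refine tendsto_integral_of_dominated_convergence (fun _ => (1 : ℝ)) ?_ ?_ ?_ ?_
  · intro n
    have hc : Continuous fun x : ℝ => Complex.exp (t * (x : ℂ) * Complex.I) := by fun_prop
    exact (hc.measurable.comp (measurable_Xn n)).aestronglyMeasurable
  · exact integrable_const _
  · intro n
    refine Filter.Eventually.of_forall fun ω => ?_
    have : (t : ℂ) * (Xn n ω : ℂ) * Complex.I = ((t * Xn n ω : ℝ) : ℂ) * Complex.I := by
      push_cast; ring
    rw [this, Complex.norm_exp_ofReal_mul_I]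
  · refine Filter.Eventually.of_forall fun ω => ?_
    have hc : Continuous fun x : ℝ => Complex.exp (t * (x : ℂ) * Complex.I) := by fun_prop
    exact (hc.tendsto _).comp (tendsto_Xn ω)

lemma charFun_rec (t : ℝ) : charFun mu t = phi (t / 12) * charFun mu (t / 12) := by
  have h1 := (tendsto_charFun t).comp (tendsto_add_atTop_nat 1)
  have h2 := (tendsto_charFun (t / 12)).const_mul (phi (t / 12))
  refine tendsto_nhds_unique h1 (h2.congr fun n => ?_)
  simp only [Function.comp]
  rw [charFun_Xn, charFun_Xn, Finset.prod_range_succ', mul_comm]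
  congr 1
  · refine Finset.prod_congr rfl fun k _ => ?_
    congr 1
    rw [div_div, ← pow_succ']
  · simp

/-- the pushforward under one map of the system -/
lemma charFun_map_affine (a : Fin 4) (t : ℝ) :
    charFun (mu.map fun x => (x + dg a) / 12) t =
      Complex.exp ((t / 12 : ℝ) * dg a * Complex.I) * charFun mu (t / 12) := by
  have hm : Measurable fun x : ℝ => (x + dg a) / 12 := by fun_prop
  rw [charFun_apply_real, charFun_apply_real, integral_map hm.aemeasurable
    (by fun_prop : Continuous _).aestronglyMeasurable, ← integral_const_mul]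
  refine integral_congr_ae (Filter.Eventually.of_forall fun x => ?_)
  simp only
  rw [← Complex.exp_add]
  congr 1
  push_cast
  ring

/-- self-similarity -/
lemma mu_selfsim : mu = (4⁻¹ : ℝ≥0∞) • ∑ a : Fin 4, mu.map fun x => (x + dg a) / 12 := by
  have hprob : ∀ a : Fin 4, IsProbabilityMeasure (mu.map fun x => (x + dg a) / 12) := fun a =>
    Measure.isProbabilityMeasure_map (by fun_prop)
  have hfin : IsFiniteMeasure (∑ a : Fin 4, mu.map fun x => (x + dg a) / 12) := by
    infer_instance
  have hfin2 : IsFiniteMeasure ((4⁻¹ : ℝ≥0∞) • ∑ a : Fin 4, mu.map fun x => (x + dg a) / 12) :=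
    Measure.smul_finite _ (by norm_num)
  refine Measure.ext_of_charFun ?_
  funext t
  rw [charFun_rec, charFun_apply_real (μ := (4⁻¹ : ℝ≥0∞) • _), integral_smul_measure,
    integral_finsetSum_measure]
  · have h1 : ∀ a : Fin 4, ∫ x : ℝ, Complex.exp (t * x * Complex.I) ∂(mu.map fun x => (x + dg a) / 12)
        = Complex.exp ((t / 12 : ℝ) * dg a * Complex.I) * charFun mu (t / 12) := by
      intro a
      rw [← charFun_map_affine, charFun_apply_real]
    simp_rw [h1]
    rw [← Finset.sum_mul]
    unfold phi
    simp only [ENNReal.toReal_inv, ENNReal.toReal_ofNat, Complex.real_smul]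
    push_cast
    ring
  · intro a _
    refine Integrable.of_bound (C := 1) (by fun_prop : Continuous _).aestronglyMeasurable ?_
    refine Filter.Eventually.of_forall fun x => ?_
    have : (t : ℂ) * (x : ℂ) * Complex.I = ((t * x : ℝ) : ℂ) * Complex.I := by
      push_cast; ring
    rw [this, Complex.norm_exp_ofReal_mul_I]

end Pool.Agent.J6H90.Spec
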